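import Mathlib

/-!
# Ambiguity of intersections of boundedly ambiguous VASS languages (MP_bb7684_lc)
-/

set_option autoImplicit false

namespace Pool.Agent.Results.MP_bb7684_lc.TightIntersection

open Filter

/-- A vector addition system with states over the alphabet `A`. -/
structure VASS (A : Type) where
  /-- the dimension -/
  d : ℕ
  /-- the states -/
  Q : Type
  /-- there are finitely many states -/
  finite_states : Finite Q
  /-- the transitions -/
  T : Set (Q × A × (Fin d → ℤ) × Q)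
  /-- there are finitely many transitions -/
  finite_transitions : T.Finite
  /-- the initial state -/
  q₀ : Q
  /-- the initial vector -/
  c₀ : Fin d → ℕ
  /-- the accepting states -/
  F : Set Q

namespace VASS

variable {A : Type} (V : VASS A)

/-- The type in which the transitions live: source, label, vector, target. -/
abbrev Tr : Type := V.Q × A × (Fin V.d → ℤ) × V.Q

/-- Configurations `q(v)`. -/
abbrev Conf : Type := V.Q × (Fin V.d → ℕ)

/-- The label of a transition. -/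
def label (t : V.Tr) : A := t.2.1

/-- The transition `t` of `V` moves `κ` to `κ'`. -/
def Step (κ : V.Conf) (t : V.Tr) (κ' : V.Conf) : Prop :=
  t ∈ V.T ∧ t.1 = κ.1 ∧ t.2.2.2 = κ'.1 ∧ ∀ i, (κ'.2 i : ℤ) = κ.2 i + t.2.2.1 i

/-- The sequence of transitions is firable in turn from the first configuration and leads to the
last one. -/
def Fires : V.Conf → List V.Tr → V.Conf → Prop
  | κ, [], κ' => κ' = κ
  | κ, t :: ρ, κ' => ∃ μ, V.Step κ t μ ∧ Fires μ ρ κ'

/-- The accepting runs on the word `w`. -/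
def acc (w : List A) : Set (List V.Tr) :=
  {ρ | ρ.map V.label = w ∧ ∃ κ, V.Fires (V.q₀, V.c₀) ρ κ ∧ κ.1 ∈ V.F}

/-- The language of `V`. -/
def lang : Set (List A) := {w | (V.acc w).Nonempty}

/-- `V` is `k`-ambiguous: every word has at most `k` accepting runs. -/
def Ambiguous (k : ℕ) : Prop := ∀ w, (V.acc w).encard ≤ k

/-! ### Basic facts on runs -/

variable {V}

lemma Step.det {κ κ₁ κ₂ : V.Conf} {t : V.Tr} (h₁ : V.Step κ t κ₁) (h₂ : V.Step κ t κ₂) :
    κ₁ = κ₂ := by
  obtain ⟨-, -, e1, e2⟩ := h₁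
  obtain ⟨-, -, e3, e4⟩ := h₂
  refine Prod.ext (e1.symm.trans e3) (funext fun i => ?_)
  have := (e2 i).trans (e4 i).symm
  exact_mod_cast this

lemma Fires.det {κ κ₁ κ₂ : V.Conf} {ρ : List V.Tr} (h₁ : V.Fires κ ρ κ₁) (h₂ : V.Fires κ ρ κ₂) :
    κ₁ = κ₂ := by
  induction ρ generalizing κ with
  | nil => exact h₁.trans h₂.symm
  | cons t ρ ih =>
    obtain ⟨μ₁, s1, f1⟩ := h₁
    obtain ⟨μ₂, s2, f2⟩ := h₂
    obtain rfl := s1.det s2
    exact ih f1 f2

lemma fires_append {κ κ' : V.Conf} {ρ₁ ρ₂ : List V.Tr} :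
    V.Fires κ (ρ₁ ++ ρ₂) κ' ↔ ∃ μ, V.Fires κ ρ₁ μ ∧ V.Fires μ ρ₂ κ' := by
  induction ρ₁ generalizing κ with
  | nil => simp [Fires]
  | cons t ρ ih =>
    rw [List.cons_append]
    constructor
    · rintro ⟨μ, h1, h2⟩
      obtain ⟨ν, h3, h4⟩ := ih.mp h2
      exact ⟨ν, ⟨μ, h1, h3⟩, h4⟩
    · rintro ⟨ν, ⟨μ, h1, h3⟩, h4⟩
      exact ⟨μ, h1, ih.mpr ⟨ν, h3, h4⟩⟩

/-- adding a vector to a configuration -/
def up (κ : V.Conf) (c : Fin V.d → ℕ) : V.Conf := (κ.1, κ.2 + c)

lemma Step.up {κ κ' : V.Conf} {t : V.Tr} (h : V.Step κ t κ') (c : Fin V.d → ℕ) :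
    V.Step (VASS.up κ c) t (VASS.up κ' c) := by
  obtain ⟨h1, h2, h3, h4⟩ := h
  refine ⟨h1, h2, h3, fun i => ?_⟩
  have := h4 i
  simp only [VASS.up, Pi.add_apply]
  push_cast
  linarith

lemma Fires.up {κ κ' : V.Conf} {ρ : List V.Tr} (h : V.Fires κ ρ κ') (c : Fin V.d → ℕ) :
    V.Fires (VASS.up κ c) ρ (VASS.up κ' c) := by
  induction ρ generalizing κ with
  | nil =>
    have : κ' = κ := h
    rw [this]; rfl
  | cons t ρ ih =>
    obtain ⟨μ, s1, f1⟩ := h
    exact ⟨VASS.up μ c, s1.up c, ih f1⟩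

lemma up_up (κ : V.Conf) (c c' : Fin V.d → ℕ) : up (up κ c) c' = up κ (c + c') := by
  simp [up, add_assoc]

/-- The set of configurations reachable in `n` steps is finite. -/
lemma finite_post (κ : V.Conf) (n : ℕ) :
    {κ' : V.Conf | ∃ ρ : List V.Tr, ρ.length = n ∧ V.Fires κ ρ κ'}.Finite := by
  induction n generalizing κ with
  | zero =>
    refine (Set.finite_singleton κ).subset ?_
    rintro κ' ⟨ρ, h1, h2⟩
    rw [List.length_eq_zero_iff] at h1
    subst h1
    exact h2
  | succ n ih =>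
    have hS : {μ : V.Conf | ∃ t ∈ V.T, V.Step κ t μ}.Finite := by
      have : {μ : V.Conf | ∃ t ∈ V.T, V.Step κ t μ} = ⋃ t ∈ V.T, {μ | V.Step κ t μ} := by
        ext μ; simp
      rw [this]
      refine V.finite_transitions.biUnion fun t _ => ?_
      exact Set.Subsingleton.finite fun a ha b hb => Step.det ha hb
    refine (hS.biUnion fun μ _ => ih μ).subset ?_
    rintro κ' ⟨ρ, h1, h2⟩
    cases ρ with
    | nil => simp at h1
    | cons t ρ =>
      obtain ⟨μ, s1, f1⟩ := h2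
      simp only [Set.mem_iUnion]
      exact ⟨μ, ⟨t, s1.1, s1⟩, ρ, by simpa using h1, f1⟩

lemma wqo (c : ℕ → V.Conf) : ∃ g : ℕ ↪o ℕ, ∀ m n, m ≤ n → ∃ v, c (g n) = up (c (g m)) v := by
  have := V.finite_states
  have h1 : WellQuasiOrdered (fun a b : V.Q => a = b) := Finite.wellQuasiOrdered _
  have h2 : WellQuasiOrdered (fun a b : Fin V.d → ℕ => a ≤ b) := wellQuasiOrdered_le
  have h3 := h1.prod h2
  have : IsPreorder V.Conf (fun a b : V.Conf => a.1 = b.1 ∧ a.2 ≤ b.2) :=
    { refl := fun a => ⟨rfl, le_rfl⟩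
      trans := fun a b c hab hbc => ⟨hab.1.trans hbc.1, hab.2.trans hbc.2⟩ }
  obtain ⟨g, hg⟩ := h3.exists_monotone_subseq c
  refine ⟨g, fun m n hmn => ⟨(c (g n)).2 - (c (g m)).2, ?_⟩⟩
  obtain ⟨e1, e2⟩ := hg m n hmn
  refine Prod.ext e1.symm (funext fun i => ?_)
  have : (c (g m)).2 i ≤ (c (g n)).2 i := e2 i
  simp only [up, Pi.add_apply, Pi.sub_apply]
  omega

/-! ### Pumping -/

/-- repetition -/
def rep (q : ℕ) (ρ : List V.Tr) : List V.Tr := (List.replicate q ρ).flatten

lemma rep_succ (q : ℕ) (ρ : List V.Tr) : rep (q + 1) ρ = ρ ++ rep q ρ := by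
  simp [rep, List.replicate_succ]

lemma rep_length (q : ℕ) (ρ : List V.Tr) : (rep q ρ).length = q * ρ.length := by
  simp [rep]

lemma mem_rep {q : ℕ} {ρ : List V.Tr} {t : V.Tr} (h : t ∈ rep q ρ) : t ∈ ρ := by
  rw [rep, List.mem_flatten] at h
  obtain ⟨l, h1, h2⟩ := h
  rw [List.eq_of_mem_replicate h1] at h2
  exact h2

lemma fires_rep {κ : V.Conf} {ρ : List V.Tr} {c : Fin V.d → ℕ} (h : V.Fires κ ρ (up κ c)) (q : ℕ) :
    V.Fires κ (rep q ρ) (up κ (q • c)) := by
  induction q with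
  | zero =>
    show up κ (0 • c) = κ
    simp [up]
  | succ q ih =>
    rw [rep_succ, fires_append]
    refine ⟨up κ c, h, ?_⟩
    have h2 := ih.up c
    rw [up_up] at h2
    have e : (q + 1) • c = q • c + c := by rw [add_smul, one_smul]
    rw [e]
    exact h2

/-- the run `ρ` from `κ` contains a loop which can be pumped -/
def HasPump (κ : V.Conf) (ρ : List V.Tr) : Prop :=
  ∃ (ρ₁ ρ₂ ρ₃ : List V.Tr) (κ₁ : V.Conf) (c : Fin V.d → ℕ), ρ = ρ₁ ++ (ρ₂ ++ ρ₃) ∧ ρ₂ ≠ [] ∧
    V.Fires κ ρ₁ κ₁ ∧ V.Fires κ₁ ρ₂ (up κ₁ c)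

lemma HasPump.up {κ : V.Conf} {ρ : List V.Tr} (h : HasPump κ ρ) (c : Fin V.d → ℕ) :
    HasPump (VASS.up κ c) ρ := by
  obtain ⟨ρ₁, ρ₂, ρ₃, κ₁, c', h1, h2, h3, h4⟩ := h
  refine ⟨ρ₁, ρ₂, ρ₃, VASS.up κ₁ c, c', h1, h2, h3.up c, ?_⟩
  have := h4.up c
  rw [up_up, add_comm, ← up_up] at this
  exact this

/-- long runs contain short loops which can be pumped -/
lemma exists_bound (κ : V.Conf) : ∃ B : ℕ, ∀ (ρ : List V.Tr) (κ' : V.Conf), B ≤ ρ.length →
    V.Fires κ ρ κ' → ∃ (ρ₁ ρ₂ ρ₃ : List V.Tr) (κ₁ : V.Conf) (c : Fin V.d → ℕ),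
      ρ = ρ₁ ++ (ρ₂ ++ ρ₃) ∧ ρ₂ ≠ [] ∧ ρ₂.length ≤ B ∧ V.Fires κ ρ₁ κ₁ ∧
        V.Fires κ₁ ρ₂ (up κ₁ c) ∧ V.Fires (up κ₁ c) ρ₃ κ' := by
  by_contra hcon
  push Not at hcon
  choose ρ κ' hlen hfire hbad using hcon
  have hsplit : ∀ B i : ℕ, ∃ μ : V.Conf, i ≤ B →
      V.Fires κ ((ρ B).take i) μ ∧ V.Fires μ ((ρ B).drop i) (κ' B) := by
    intro B i
    have h1 := hfire B
    rw [← List.take_append_drop i (ρ B), fires_append] at h1
    obtain ⟨μ, h2, h3⟩ := h1
    exact ⟨μ, fun _ => ⟨h2, h3⟩⟩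
  choose c hc using hsplit
  have hlim : ∀ i : ℕ, ∃ μ : V.Conf, ∀ᶠ B in (hyperfilter ℕ : Filter ℕ), c B i = μ := by
    intro i
    have hfin := finite_post κ i
    have h1 : ∀ᶠ B in (hyperfilter ℕ : Filter ℕ),
        ∃ μ ∈ {κ' : V.Conf | ∃ ρ : List V.Tr, ρ.length = i ∧ V.Fires κ ρ κ'}, c B i = μ := by
      have h2 : ∀ᶠ B in (hyperfilter ℕ : Filter ℕ), i ≤ B :=
        (eventually_ge_atTop i).filter_mono Nat.hyperfilter_le_atTop
      filter_upwards [h2] with B hB
      refine ⟨c B i, ⟨(ρ B).take i, ?_, (hc B i hB).1⟩, rfl⟩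
      rw [List.length_take]
      have := hlen B
      omega
    rw [Ultrafilter.eventually_exists_mem_iff hfin] at h1
    obtain ⟨μ, -, h3⟩ := h1
    exact ⟨μ, h3⟩
  choose μ hμ using hlim
  obtain ⟨g, hg⟩ := wqo μ
  have hij : g 0 < g 1 := g.strictMono Nat.zero_lt_one
  obtain ⟨v, hv⟩ := hg 0 1 (Nat.zero_le 1)
  have hev := ((hμ (g 0)).and (hμ (g 1))).and
    ((eventually_ge_atTop (g 1)).filter_mono Nat.hyperfilter_le_atTop)
  obtain ⟨B, ⟨h0, h1⟩, hB⟩ := hev.exists
  have f0 := hc B (g 0) (hij.le.trans hB)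
  have f1 := hc B (g 1) hB
  rw [h0] at f0
  rw [h1, hv] at f1
  have hlB := hlen B
  have e1 : (ρ B).take (g 1) = (ρ B).take (g 0) ++ ((ρ B).take (g 1)).drop (g 0) := by
    conv_lhs => rw [← List.take_append_drop (g 0) ((ρ B).take (g 1))]
    rw [List.take_take, min_eq_left hij.le]
  have f2 := f1.1
  rw [e1, fires_append] at f2
  obtain ⟨ν, f3, f4⟩ := f2
  obtain rfl := f3.det f0.1
  refine hbad B ((ρ B).take (g 0)) (((ρ B).take (g 1)).drop (g 0)) ((ρ B).drop (g 1)) (μ (g 0)) v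
    ?_ ?_ ?_ f3 f4 f1.2
  · rw [← List.append_assoc, ← e1, List.take_append_drop]
  · intro h
    have := congrArg List.length h
    rw [List.length_drop, List.length_take, List.length_nil] at this
    omega
  · rw [List.length_drop, List.length_take]
    omega

/-- the labels are constant -/
lemma map_label_eq_replicate {ρ : List V.Tr} {n : ℕ} {x : A} :
    ρ.map V.label = List.replicate n x ↔ ρ.length = n ∧ ∀ t ∈ ρ, V.label t = x := by
  rw [List.eq_replicate_iff, List.length_map, List.forall_mem_map]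

/-- a run on `x ^ n` from `κ` into `G` -/
def Into (G : V.Conf → Prop) (x : A) (n : ℕ) (κ : V.Conf) : Prop :=
  ∃ (ρ : List V.Tr) (κ' : V.Conf), ρ.map V.label = List.replicate n x ∧ V.Fires κ ρ κ' ∧ G κ'

/-- a run with a loop on `x ^ n` from `κ` into `G` -/
def IntoPump (G : V.Conf → Prop) (x : A) (n : ℕ) (κ : V.Conf) : Prop :=
  ∃ (ρ : List V.Tr) (κ' : V.Conf), ρ.map V.label = List.replicate n x ∧ V.Fires κ ρ κ' ∧
    HasPump κ ρ ∧ G κ'

/-- upward closed sets of configurations -/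
def UpClosed (G : V.Conf → Prop) : Prop := ∀ κ c, G κ → G (up κ c)

lemma pump_single {G : V.Conf → Prop} (hG : UpClosed G) {x : A} {κ : V.Conf}
    (h : ∃ᶠ t : ℕ in atTop, Into G x t.factorial κ) :
    ∀ᶠ t : ℕ in atTop, IntoPump G x t.factorial κ := by
  obtain ⟨B, hB⟩ := exists_bound κ
  obtain ⟨t₁, ht₁, ρ, κ', hlab, hf, hκ'⟩ := (frequently_atTop.mp h) B
  rw [map_label_eq_replicate] at hlab
  obtain ⟨hl, hlab⟩ := hlab
  obtain ⟨ρ₁, ρ₂, ρ₃, κ₁, c, e1, hne, hle, f1, f2, f3⟩ := hB ρ κ'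
    (by rw [hl]; exact ht₁.trans (Nat.self_le_factorial t₁)) hf
  filter_upwards [eventually_ge_atTop t₁] with t ht
  have hpos : 0 < ρ₂.length := List.length_pos_iff.mpr hne
  have hd1 : ρ₂.length ∣ t₁.factorial := Nat.dvd_factorial hpos (hle.trans ht₁)
  have hd2 : ρ₂.length ∣ t.factorial := Nat.dvd_factorial hpos (hle.trans (ht₁.trans ht))
  obtain ⟨q, hq⟩ := Nat.dvd_sub hd2 hd1
  have hfac : t₁.factorial ≤ t.factorial := Nat.factorial_le ht
  refine ⟨ρ₁ ++ (ρ₂ ++ (rep q ρ₂ ++ ρ₃)), up κ' (q • c), ?_, ?_, ?_, hG _ _ hκ'⟩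
  · rw [map_label_eq_replicate]
    constructor
    · rw [e1] at hl
      simp only [List.length_append, rep_length] at hl ⊢
      rw [mul_comm q]
      omega
    · intro s hs
      apply hlab
      rw [e1]
      simp only [List.mem_append] at hs ⊢
      rcases hs with h | h | h | h
      · exact Or.inl h
      · exact Or.inr (Or.inl h)
      · exact Or.inr (Or.inl (mem_rep h))
      · exact Or.inr (Or.inr h)
  · rw [fires_append]
    refine ⟨κ₁, f1, ?_⟩
    rw [fires_append]
    refine ⟨up κ₁ c, f2, ?_⟩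
    rw [fires_append]
    refine ⟨up (up κ₁ c) (q • c), ?_, f3.up _⟩
    have h2 := (fires_rep f2 q).up c
    rw [up_up, add_comm, ← up_up] at h2
    exact h2
  · exact ⟨ρ₁, ρ₂, rep q ρ₂ ++ ρ₃, κ₁, c, rfl, hne, f1, f2⟩

lemma pump_uniform {G : V.Conf → Prop} (hG : UpClosed G) (x : A) :
    ∀ᶠ t : ℕ in atTop, ∀ κ, (∃ᶠ s : ℕ in atTop, Into G x s.factorial κ) →
      IntoPump G x t.factorial κ := by
  by_contra hcon
  rw [not_eventually] at hcon
  obtain ⟨φ, hφ, hbad⟩ := extraction_of_frequently_atTop hcon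
  push Not at hbad
  choose κ hκ1 hκ2 using hbad
  obtain ⟨g, hg⟩ := wqo κ
  have h1 := pump_single hG (hκ1 (g 0))
  have h2 : Tendsto (fun n => φ (g n)) atTop atTop :=
    hφ.tendsto_atTop.comp g.strictMono.tendsto_atTop
  obtain ⟨n, hn⟩ := (h2.eventually h1).exists
  obtain ⟨v, hv⟩ := hg 0 n (Nat.zero_le n)
  apply hκ2 (g n)
  obtain ⟨ρ, κ', e1, e2, e3, e4⟩ := hn
  rw [hv]
  exact ⟨ρ, up κ' v, e1, e2.up v, e3.up v, hG _ _ e4⟩

/-! ### Block words -/

section Blocks

variable {R : Type}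

/-- the word is accepted from the configuration `κ` -/
def AccFrom (κ : V.Conf) (w : List A) : Prop :=
  ∃ (ρ : List V.Tr) (κ' : V.Conf), ρ.map V.label = w ∧ V.Fires κ ρ κ' ∧ κ'.1 ∈ V.F

lemma Into.up {G : V.Conf → Prop} (hG : UpClosed G) {x : A} {n : ℕ} {κ : V.Conf}
    (h : Into G x n κ) (c : Fin V.d → ℕ) : Into G x n (VASS.up κ c) := by
  obtain ⟨ρ, κ', h1, h2, h3⟩ := h
  exact ⟨ρ, VASS.up κ' c, h1, h2.up c, hG _ _ h3⟩

/-- The good configurations for the reason `r` before a list of blocks; a block is a letter, the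
set of the reasons for which it can be pumped and a number `t` (the exponent is `t !`). -/
def Good (V : VASS A) (r : R) : List (A × Set R × ℕ) → V.Conf → Prop
  | [], κ => κ.1 ∈ V.F
  | y :: s, κ => (r ∈ y.2.1 → ∃ᶠ t : ℕ in atTop, Into (Good V r s) y.1 t.factorial κ) ∧
      (r ∉ y.2.1 → Into (Good V r s) y.1 y.2.2.factorial κ)

lemma good_upClosed (r : R) (s : List (A × Set R × ℕ)) : UpClosed (Good V r s) := by
  induction s with
  | nil => exact fun κ c h => h
  | cons y s ih =>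
    intro κ c h
    exact ⟨fun hr => (h.1 hr).mono fun t ht => ht.up ih c, fun hr => (h.2 hr).up ih c⟩

/-- the words which match the list of blocks for the reason `r` -/
def Words (r : R) : List (A × Set R × ℕ) → Set (List A)
  | [] => {[]}
  | y :: s => {w | ∃ m w', (r ∉ y.2.1 → m = y.2.2.factorial) ∧ w' ∈ Words r s ∧
      w = List.replicate m y.1 ++ w'}

lemma good_of_words (r : R) (s : List (A × Set R × ℕ)) (C : Set V.Conf) (hC : C.Finite)
    (h : ∀ w ∈ Words r s, ∃ κ ∈ C, AccFrom κ w) : ∃ κ ∈ C, Good V r s κ := by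
  induction s generalizing C with
  | nil =>
    obtain ⟨κ, hκ, ρ, κ', h1, h2, h3⟩ := h [] rfl
    rw [List.map_eq_nil_iff] at h1
    subst h1
    obtain rfl : κ' = κ := h2
    exact ⟨κ', hκ, h3⟩
  | cons y s ih =>
    have key : ∀ m, (r ∉ y.2.1 → m = y.2.2.factorial) → ∃ κ ∈ C, Into (Good V r s) y.1 m κ := by
      intro m hm
      set C' : Set V.Conf := {κ' | ∃ κ ∈ C, ∃ ρ : List V.Tr,
        ρ.map V.label = List.replicate m y.1 ∧ V.Fires κ ρ κ'} with hC'
      have hfin : C'.Finite := by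
        refine (hC.biUnion fun κ _ => finite_post κ m).subset ?_
        rintro κ' ⟨κ, hκ, ρ, h1, h2⟩
        simp only [Set.mem_iUnion]
        exact ⟨κ, hκ, ρ, (map_label_eq_replicate.mp h1).1, h2⟩
      obtain ⟨κ', ⟨κ, hκ, ρ, h1, h2⟩, hg⟩ := ih C' hfin (by
        intro w' hw'
        obtain ⟨κ, hκ, ρ, κ', h1, h2, h3⟩ := h (List.replicate m y.1 ++ w') ⟨m, w', hm, hw', rfl⟩
        rw [List.map_eq_append_iff] at h1
        obtain ⟨ρ₁, ρ₂, rfl, h4, h5⟩ := h1
        rw [fires_append] at h2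
        obtain ⟨μ, h6, h7⟩ := h2
        exact ⟨μ, ⟨κ, hκ, ρ₁, h4, h6⟩, ρ₂, κ', h5, h7, h3⟩)
      exact ⟨κ, hκ, ρ, κ', h1, h2, hg⟩
    by_cases hr : r ∈ y.2.1
    · by_contra hcon
      push Not at hcon
      have h1 : ∀ κ ∈ C, ∀ᶠ t : ℕ in atTop, ¬ Into (Good V r s) y.1 t.factorial κ := by
        intro κ hκ
        have h2 := hcon κ hκ
        rw [← not_frequently]
        intro h3
        exact h2 ⟨fun _ => h3, fun h4 => absurd hr h4⟩
      rw [← eventually_all_finite hC] at h1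
      obtain ⟨t, ht⟩ := h1.exists
      obtain ⟨κ, hκ, h2⟩ := key t.factorial (fun h4 => absurd hr h4)
      exact ht κ hκ h2
    · obtain ⟨κ, hκ, h2⟩ := key y.2.2.factorial (fun _ => rfl)
      exact ⟨κ, hκ, fun h4 => absurd h4 hr, fun _ => h2⟩

/-- the choice of the exponents is good -/
def OK (V : VASS A) : List (A × Set R × ℕ) → Prop
  | [] => True
  | y :: s => (∀ r ∈ y.2.1, ∀ κ, Good V r (y :: s) κ →
      IntoPump (Good V r s) y.1 y.2.2.factorial κ) ∧ (∀ z ∈ s, z.2.2 ≤ y.2.2) ∧ OK V s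

lemma exists_ok [Finite R] (V : VASS A) (bs : List (A × Set R)) :
    ∃ s : List (A × Set R × ℕ), s.map (fun y => (y.1, y.2.1)) = bs ∧ OK V s := by
  induction bs with
  | nil => exact ⟨[], rfl, trivial⟩
  | cons b bs ih =>
    obtain ⟨s, hs, hok⟩ := ih
    have h1 : ∀ᶠ t : ℕ in atTop, ∀ r : R, ∀ κ,
        (∃ᶠ s' : ℕ in atTop, Into (Good V r s) b.1 s'.factorial κ) →
          IntoPump (Good V r s) b.1 t.factorial κ :=
      eventually_all.mpr fun r => pump_uniform (good_upClosed r s) b.1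
    have h2 : ∀ᶠ t : ℕ in atTop, ∀ z ∈ {z | z ∈ s}, z.2.2 ≤ t :=
      (eventually_all_finite (List.finite_toSet s)).mpr fun z _ => eventually_ge_atTop _
    obtain ⟨t, ht1, ht2⟩ := (h1.and h2).exists
    refine ⟨(b.1, b.2, t) :: s, ?_, ?_, ?_, hok⟩
    · rw [List.map_cons, hs]
    · intro r hr κ hκ
      exact ht1 r κ (hκ.1 hr)
    · exact ht2

/-- runs with the required loops, cut at the blocks -/
def PRun (V : VASS A) (r : R) : List (A × Set R × ℕ) → V.Conf → List (List V.Tr) → Prop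
  | [], κ, ρs => ρs = [] ∧ κ.1 ∈ V.F
  | y :: s, κ, ρs => ∃ (ρ : List V.Tr) (ρs' : List (List V.Tr)) (κ' : V.Conf), ρs = ρ :: ρs' ∧
      ρ.map V.label = List.replicate y.2.2.factorial y.1 ∧ V.Fires κ ρ κ' ∧
        (r ∈ y.2.1 → HasPump κ ρ) ∧ PRun V r s κ' ρs'

lemma exists_prun (r : R) (s : List (A × Set R × ℕ)) (hok : OK V s) (κ : V.Conf)
    (h : Good V r s κ) : ∃ ρs, PRun V r s κ ρs := by
  induction s generalizing κ with
  | nil => exact ⟨[], rfl, h⟩
  | cons y s ih =>
    by_cases hr : r ∈ y.2.1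
    · obtain ⟨ρ, κ', h1, h2, h3, h4⟩ := hok.1 r hr κ h
      obtain ⟨ρs, h5⟩ := ih hok.2.2 κ' h4
      exact ⟨ρ :: ρs, ρ, ρs, κ', rfl, h1, h2, fun _ => h3, h5⟩
    · obtain ⟨ρ, κ', h1, h2, h4⟩ := h.2 hr
      obtain ⟨ρs, h5⟩ := ih hok.2.2 κ' h4
      exact ⟨ρ :: ρs, ρ, ρs, κ', rfl, h1, h2, fun h6 => absurd h6 hr, h5⟩

/-- the word -/
def word (s : List (A × Set R × ℕ)) : List A :=
  (s.map fun y => List.replicate y.2.2.factorial y.1).flatten

lemma prun_acc {r : R} {s : List (A × Set R × ℕ)} {κ : V.Conf} {ρs : List (List V.Tr)}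
    (h : PRun V r s κ ρs) :
    ρs.flatten.map V.label = word s ∧ ∃ κ', V.Fires κ ρs.flatten κ' ∧ κ'.1 ∈ V.F := by
  induction s generalizing κ ρs with
  | nil =>
    obtain ⟨rfl, h2⟩ := h
    exact ⟨rfl, κ, rfl, h2⟩
  | cons y s ih =>
    obtain ⟨ρ, ρs', κ', rfl, h1, h2, -, h3⟩ := h
    obtain ⟨h4, κ'', h5, h6⟩ := ih h3
    rw [List.flatten_cons]
    refine ⟨?_, κ'', fires_append.mpr ⟨κ', h2, h5⟩, h6⟩
    rw [List.map_append, h1, h4]
    rfl

lemma prun_inj {r r' : R} {s : List (A × Set R × ℕ)} {κ κ₁ : V.Conf} {ρs ρs' : List (List V.Tr)}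
    (h : PRun V r s κ ρs) (h' : PRun V r' s κ₁ ρs') (he : ρs.flatten = ρs'.flatten) :
    ρs = ρs' := by
  induction s generalizing κ κ₁ ρs ρs' with
  | nil => rw [h.1, h'.1]
  | cons y s ih =>
    obtain ⟨ρ, ρt, κ', rfl, h1, h2, -, h3⟩ := h
    obtain ⟨σ, σt, κ'', rfl, h1', h2', -, h3'⟩ := h'
    rw [List.flatten_cons, List.flatten_cons] at he
    have hl : ρ.length = σ.length := by
      rw [(map_label_eq_replicate.mp h1).1, (map_label_eq_replicate.mp h1').1]
    obtain ⟨rfl, e2⟩ := List.append_inj he hl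
    rw [ih h3 h3' e2]

/-- the words which are obtained by pumping -/
def PW (r r' : R) (n : ℕ) : List (A × Set R × ℕ) → Set (List A)
  | [] => {[]}
  | y :: s => {w | ∃ m w', (r ∉ y.2.1 → r' ∉ y.2.1 → m = y.2.2.factorial) ∧
      (r ∈ y.2.1 ∨ r' ∈ y.2.1 → n ≤ m) ∧ w' ∈ PW r r' n s ∧ w = List.replicate m y.1 ++ w'}

lemma pump_run {κ κ' : V.Conf} {ρ : List V.Tr} {x : A} {N : ℕ}
    (h1 : ρ.map V.label = List.replicate N x) (h2 : V.Fires κ ρ κ') (h3 : HasPump κ ρ) (n : ℕ) :
    ∃ (ρ' : List V.Tr) (m : ℕ) (c : Fin V.d → ℕ), n ≤ m ∧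
      ρ'.map V.label = List.replicate m x ∧ V.Fires κ ρ' (up κ' c) := by
  obtain ⟨ρ₁, ρ₂, ρ₃, κ₁, c, rfl, hne, f1, f2⟩ := h3
  rw [fires_append] at h2
  obtain ⟨μ, f3, f4⟩ := h2
  obtain rfl := f3.det f1
  rw [fires_append] at f4
  obtain ⟨ν, f5, f6⟩ := f4
  obtain rfl := f5.det f2
  have hpos : 0 < ρ₂.length := List.length_pos_iff.mpr hne
  refine ⟨ρ₁ ++ (ρ₂ ++ (rep n ρ₂ ++ ρ₃)),
    ρ₁.length + (ρ₂.length + (n * ρ₂.length + ρ₃.length)), n • c, ?_, ?_, ?_⟩
  · have : n ≤ n * ρ₂.length := Nat.le_mul_of_pos_right n hpos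
    omega
  · rw [map_label_eq_replicate]
    refine ⟨by simp only [List.length_append, rep_length], fun t ht => ?_⟩
    apply (map_label_eq_replicate.mp h1).2
    simp only [List.mem_append] at ht ⊢
    rcases ht with h | h | h | h
    · exact Or.inl h
    · exact Or.inr (Or.inl h)
    · exact Or.inr (Or.inl (mem_rep h))
    · exact Or.inr (Or.inr h)
  · rw [fires_append]
    refine ⟨μ, f1, ?_⟩
    rw [fires_append]
    refine ⟨up μ c, f2, ?_⟩
    rw [fires_append]
    refine ⟨up (up μ c) (n • c), ?_, f6.up _⟩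
    have h2 := (fires_rep f2 n).up c
    rw [up_up, add_comm, ← up_up] at h2
    exact h2

lemma prun_pump {r r' : R} {s : List (A × Set R × ℕ)} {κ : V.Conf} {ρs : List (List V.Tr)}
    (h : PRun V r s κ ρs) (h' : PRun V r' s κ ρs) (n : ℕ) (c : Fin V.d → ℕ) :
    ∃ w ∈ PW r r' n s, AccFrom (up κ c) w := by
  induction s generalizing κ ρs c with
  | nil => exact ⟨[], rfl, [], up κ c, rfl, rfl, h.2⟩
  | cons y s ih =>
    obtain ⟨ρ, ρt, κ', rfl, h1, h2, h3, h4⟩ := h
    obtain ⟨σ, σt, κ'', e, h1', h2', h3', h4'⟩ := h'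
    rw [List.cons.injEq] at e
    obtain ⟨rfl, rfl⟩ := e
    obtain rfl := h2.det h2'
    by_cases hp : r ∈ y.2.1 ∨ r' ∈ y.2.1
    · have hpump : HasPump κ ρ := hp.elim h3 h3'
      obtain ⟨ρ', m, c', hm, hl, hf⟩ := pump_run h1 h2 hpump n
      obtain ⟨w, hw, τ, κe, e1, e2, e3⟩ := ih h4 h4' (c' + c)
      refine ⟨List.replicate m y.1 ++ w, ⟨m, w, ?_, fun _ => hm, hw, rfl⟩, ρ' ++ τ, κe, ?_, ?_, e3⟩
      · intro a1 a2
        exact absurd hp (by tauto)
      · rw [List.map_append, hl, e1]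
      · rw [fires_append]
        refine ⟨up κ' (c' + c), ?_, e2⟩
        have := hf.up c
        rw [up_up] at this
        exact this
    · obtain ⟨w, hw, τ, κe, e1, e2, e3⟩ := ih h4 h4' c
      refine ⟨List.replicate y.2.2.factorial y.1 ++ w,
        ⟨_, w, fun _ _ => rfl, fun h => absurd h hp, hw, rfl⟩, ρ ++ τ, κe, ?_, ?_, e3⟩
      · rw [List.map_append, h1, e1]
      · rw [fires_append]
        exact ⟨up κ' c, h2.up c, e2⟩

end Blocks

/-! ### The languages -/

section Counter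

variable {k : ℕ} [DecidableEq A] [Finite A]

/-- the effect of the letter `y` on the counter: `+ 1` for the letter `a`, `- 1` for `x` -/
def eff (a x y : A) : ℤ := if y = a then 1 else if y = x then -1 else 0

/-- The VASS of dimension one which guesses an index `i` with the first letter and checks that in
no prefix there are more letters `f i` than letters `a`. -/
def counter (a : A) (f : Fin k → A) : VASS A where
  d := 1
  Q := Option (Fin k)
  finite_states := inferInstance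
  T := Set.range fun p : Bool × A × Fin k =>
    (if p.1 then none else some p.2.2, p.2.1, fun _ => eff a (f p.2.2) p.2.1, some p.2.2)
  finite_transitions := Set.finite_range _
  q₀ := none
  c₀ := 0
  F := Set.univ

/-- the run on a word for the index `i` -/
def runOf (a : A) (f : Fin k → A) (i : Fin k) : Option (Fin k) → List A → List (counter a f).Tr
  | _, [] => []
  | q, x :: w => (q, x, fun _ => eff a (f i) x, some i) :: runOf a f i (some i) w

lemma eq_runOf_some {a : A} {f : Fin k → A} {i : Fin k} {κ κ' : (counter a f).Conf}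
    {ρ : List (counter a f).Tr} (hκ : κ.1 = some i) (h : (counter a f).Fires κ ρ κ') :
    ρ = runOf a f i (some i) (ρ.map (counter a f).label) := by
  induction ρ generalizing κ with
  | nil => rfl
  | cons t ρ ih =>
    obtain ⟨μ, ⟨⟨⟨b, x, i'⟩, h1⟩, h2, h3, h4⟩, h5⟩ := h
    subst h1
    simp only at h2 h3
    rw [hκ] at h2
    have hb : i' = i := by
      cases b
      · exact Option.some.inj h2
      · exact absurd h2.symm (Option.some_ne_none i)
    subst hb
    have e := ih h3.symm h5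
    exact congrArg₂ List.cons (Prod.ext h2 rfl) e

lemma eq_runOf_none {a : A} {f : Fin k → A} (hk : 0 < k) {κ κ' : (counter a f).Conf}
    {ρ : List (counter a f).Tr} (hκ : κ.1 = none) (h : (counter a f).Fires κ ρ κ') :
    ∃ i, ρ = runOf a f i none (ρ.map (counter a f).label) := by
  cases ρ with
  | nil => exact ⟨⟨0, hk⟩, rfl⟩
  | cons t ρ =>
    obtain ⟨μ, ⟨⟨⟨b, x, i'⟩, h1⟩, h2, h3, h4⟩, h5⟩ := h
    subst h1
    simp only at h2 h3
    rw [hκ] at h2
    have e := eq_runOf_some h3.symm h5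
    exact ⟨i', congrArg₂ List.cons (Prod.ext h2 rfl) e⟩

lemma counter_ambiguous (a : A) (f : Fin k → A) (hk : 0 < k) : (counter a f).Ambiguous k := by
  intro w
  have h1 : (counter a f).acc w ⊆ Set.range fun i : Fin k => runOf a f i none w := by
    rintro ρ ⟨h1, κ, h2, -⟩
    obtain ⟨i, hi⟩ := eq_runOf_none hk rfl h2
    rw [h1] at hi
    exact ⟨i, hi.symm⟩
  refine (Set.encard_le_encard h1).trans ?_
  rw [← Set.image_univ]
  refine (Set.encard_image_le _ _).trans ?_
  rw [Set.encard_univ, ENat.card_eq_coe_fintype_card, Fintype.card_fin]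

lemma runOf_label (a : A) (f : Fin k → A) (i : Fin k) (q : Option (Fin k)) (w : List A) :
    (runOf a f i q w).map (counter a f).label = w := by
  induction w generalizing q with
  | nil => rfl
  | cons x w ih => rw [runOf, List.map_cons, ih]; rfl

lemma runOf_step {a : A} {f : Fin k → A} {i : Fin k} {q : Option (Fin k)}
    (hq : q = none ∨ q = some i) {n m : ℕ} {x : A} (h : (m : ℤ) = n + eff a (f i) x) :
    (counter a f).Step (q, fun _ => n) (q, x, fun _ => eff a (f i) x, some i)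
      (some i, fun _ => m) := by
  rcases hq with rfl | rfl
  · exact ⟨⟨(true, x, i), rfl⟩, rfl, rfl, fun _ => h⟩
  · exact ⟨⟨(false, x, i), rfl⟩, rfl, rfl, fun _ => h⟩

lemma fires_runOf {a : A} {f : Fin k → A} {i : Fin k} (w : List A) (n : ℕ)
    (q : Option (Fin k)) (hq : q = none ∨ q = some i) (hw : w.count (f i) ≤ n) :
    ∃ κ', (counter a f).Fires (q, fun _ => n) (runOf a f i q w) κ' := by
  induction w generalizing n q with
  | nil => exact ⟨_, rfl⟩
  | cons x w ih =>
    rw [List.count_cons] at hw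
    by_cases h1 : x = a
    · obtain ⟨κ', h⟩ := ih (n + 1) (some i) (Or.inr rfl) (by
        split_ifs at hw <;> omega)
      exact ⟨κ', _, runOf_step hq (by rw [eff, if_pos h1]; push_cast; ring), h⟩
    · by_cases h2 : x = f i
      · rw [if_pos (by simpa using h2)] at hw
        obtain ⟨κ', h⟩ := ih (n - 1) (some i) (Or.inr rfl) (by omega)
        refine ⟨κ', _, runOf_step hq ?_, h⟩
        rw [eff, if_neg h1, if_pos h2, Nat.cast_sub (by omega)]
        push_cast
        ring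
      · rw [if_neg (by simpa using h2)] at hw
        obtain ⟨κ', h⟩ := ih n (some i) (Or.inr rfl) (by omega)
        exact ⟨κ', _, runOf_step hq (by rw [eff, if_neg h1, if_neg h2, add_zero]), h⟩

lemma fires_runOf_replicate {a : A} {f : Fin k → A} {i : Fin k} (w : List A) (N n : ℕ)
    (q : Option (Fin k)) (hq : q = none ∨ q = some i) (hw : w.count (f i) ≤ n + N) :
    ∃ κ', (counter a f).Fires (q, fun _ => n) (runOf a f i q (List.replicate N a ++ w)) κ' := by
  induction N generalizing n q with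
  | zero =>
    rw [List.replicate_zero, List.nil_append]
    exact fires_runOf w n q hq (by omega)
  | succ N ih =>
    rw [List.replicate_succ, List.cons_append]
    obtain ⟨κ', h⟩ := ih (n + 1) (some i) (Or.inr rfl) (by omega)
    exact ⟨κ', _, runOf_step hq (by rw [eff, if_pos rfl]; push_cast; ring), h⟩

lemma mem_lang_counter {a : A} {f : Fin k → A} (i : Fin k) {w : List A} {N : ℕ}
    (hw : w.count (f i) ≤ N) : List.replicate N a ++ w ∈ (counter a f).lang := by
  obtain ⟨κ', h⟩ := fires_runOf_replicate (a := a) (f := f) (i := i) w N 0 none (Or.inl rfl) (by omega)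
  exact ⟨_, runOf_label a f i none _, κ', h, trivial⟩

lemma count_le_of_fires {a : A} {f : Fin k → A} {i : Fin k} (w : List A) (q : Option (Fin k))
    (c : Fin 1 → ℕ) {κ' : (counter a f).Conf}
    (h : (counter a f).Fires (q, c) (runOf a f i q w) κ') :
    w.count (f i) ≤ c 0 + w.count a := by
  induction w generalizing q c with
  | nil => simp
  | cons x w ih =>
    obtain ⟨⟨q', c'⟩, ⟨h1, h2, h3, h4⟩, h5⟩ := h
    have h6 : some i = q' := h3
    subst h6
    have h8' : ∀ j : Fin 1, (c' j : ℤ) = c j + eff a (f i) x := h4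
    obtain ⟨n', h8, h7⟩ : ∃ n' : ℕ, (n' : ℤ) = c 0 + eff a (f i) x ∧
        w.count (f i) ≤ n' + w.count a := ⟨_, h8' 0, ih (some i) c' h5⟩
    rw [List.count_cons, List.count_cons]
    unfold eff at h8
    by_cases h9 : x = a
    · rw [if_pos h9] at h8
      rw [if_pos (show (x == a) = true by simpa using h9)]
      by_cases h10 : x = f i
      · rw [← h10, h9, if_pos (show (a == a) = true by simp)]
        omega
      · rw [if_neg (show ¬ (x == f i) = true by simpa using h10)]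
        omega
    · rw [if_neg h9] at h8
      rw [if_neg (show ¬ (x == a) = true by simpa using h9)]
      by_cases h10 : x = f i
      · rw [if_pos h10] at h8
        rw [if_pos (show (x == f i) = true by simpa using h10)]
        omega
      · rw [if_neg h10] at h8
        rw [if_neg (show ¬ (x == f i) = true by simpa using h10)]
        omega

lemma count_le_of_mem_lang {a : A} {f : Fin k → A} (hk : 0 < k) {w : List A}
    (h : w ∈ (counter a f).lang) : ∃ i, w.count (f i) ≤ w.count a := by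
  obtain ⟨ρ, h1, κ, h2, -⟩ := h
  obtain ⟨i, hi⟩ := eq_runOf_none hk rfl h2
  rw [h1] at hi
  rw [hi] at h2
  refine ⟨i, ?_⟩
  have := count_le_of_fires w none 0 h2
  simpa using this

end Counter

/-! ### Counting letters in block words -/

section Counting

variable {R : Type} [DecidableEq A]

omit [DecidableEq A] in
lemma words_mem {r : R} {s : List (A × Set R × ℕ)} {w : List A} (hw : w ∈ Words r s) :
    ∀ z ∈ w, z ∈ s.map Prod.fst := by
  induction s generalizing w with
  | nil =>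
    intro z hz
    rw [show w = [] from hw] at hz
    simp at hz
  | cons y s ih =>
    obtain ⟨m, w', -, h2, rfl⟩ := hw
    intro z hz
    rw [List.mem_append] at hz
    rw [List.map_cons, List.mem_cons]
    rcases hz with hz | hz
    · exact Or.inl (List.eq_of_mem_replicate hz)
    · exact Or.inr (ih h2 z hz)

lemma words_count {r : R} {x : A} {N : ℕ} {s : List (A × Set R × ℕ)}
    (hnd : (s.map Prod.fst).Nodup) (hx : ∀ y ∈ s, y.1 = x → r ∉ y.2.1 ∧ y.2.2 ≤ N) {w : List A}
    (hw : w ∈ Words r s) : w.count x ≤ N.factorial := by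
  induction s generalizing w with
  | nil =>
    rw [show w = [] from hw]
    simp
  | cons y s ih =>
    obtain ⟨m, w', h1, h2, rfl⟩ := hw
    rw [List.map_cons, List.nodup_cons] at hnd
    rw [List.count_append]
    by_cases hy : y.1 = x
    · have h3 := hx y List.mem_cons_self hy
      have h4 : w'.count x = 0 := by
        rw [List.count_eq_zero]
        intro hmem
        exact hnd.1 (hy ▸ words_mem h2 x hmem)
      rw [h4, hy, List.count_replicate_self, add_zero, h1 h3.1]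
      exact Nat.factorial_le h3.2
    · have h3 : (List.replicate m y.1).count x = 0 := by
        rw [List.count_eq_zero]
        intro hmem
        exact hy (List.eq_of_mem_replicate hmem).symm
      rw [h3, zero_add]
      exact ih hnd.2 (fun z hz => hx z (List.mem_cons_of_mem _ hz)) h2

omit [DecidableEq A] in
lemma pw_mem {r r' : R} {n : ℕ} {s : List (A × Set R × ℕ)} {w : List A} (hw : w ∈ PW r r' n s) :
    ∀ z ∈ w, z ∈ s.map Prod.fst := by
  induction s generalizing w with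
  | nil =>
    intro z hz
    rw [show w = [] from hw] at hz
    simp at hz
  | cons y s ih =>
    obtain ⟨m, w', -, -, h2, rfl⟩ := hw
    intro z hz
    rw [List.mem_append] at hz
    rw [List.map_cons, List.mem_cons]
    rcases hz with hz | hz
    · exact Or.inl (List.eq_of_mem_replicate hz)
    · exact Or.inr (ih h2 z hz)

lemma pw_count {r r' : R} {n : ℕ} {s : List (A × Set R × ℕ)} {w : List A}
    (hw : w ∈ PW r r' n s) {y : A × Set R × ℕ} (hy : y ∈ s) (hp : r ∈ y.2.1 ∨ r' ∈ y.2.1) :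
    n ≤ w.count y.1 := by
  induction s generalizing w with
  | nil => simp at hy
  | cons z s ih =>
    obtain ⟨m, w', -, h1, h2, rfl⟩ := hw
    rw [List.count_append]
    rcases List.mem_cons.mp hy with rfl | hy
    · rw [List.count_replicate_self]
      exact (h1 hp).trans (Nat.le_add_right _ _)
    · exact (ih h2 hy).trans (Nat.le_add_left _ _)

end Counting

end VASS

open VASS

/-- the letters `a`, `b₁, …, b_k` and `c₁, …, c_l` -/
def Letter (k l : ℕ) : Type := Option (Fin k ⊕ Fin l)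

instance (k l : ℕ) : DecidableEq (Letter k l) := inferInstanceAs (DecidableEq (Option _))

instance (k l : ℕ) : Finite (Letter k l) := inferInstanceAs (Finite (Option _))

/-- the letter `a` -/
def la {k l : ℕ} : Letter k l := (none : Option (Fin k ⊕ Fin l))

/-- the letters `b_i` and `c_j` -/
def lz {k l : ℕ} (z : Fin k ⊕ Fin l) : Letter k l := some z

lemma lz_injective {k l : ℕ} : Function.Injective (lz (k := k) (l := l)) :=
  Option.some_injective _

lemma lz_ne {k l : ℕ} (z : Fin k ⊕ Fin l) : lz z ≠ la := Option.some_ne_none z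

/-- the first language -/
def V₁ (k l : ℕ) : VASS (Letter k l) := counter la fun i => lz (Sum.inl i)

/-- the second language -/
def V₂ (k l : ℕ) : VASS (Letter k l) := counter la fun j => lz (Sum.inr j)

/-- the reasons for which a block can be pumped -/
def pset {k l : ℕ} : Fin k ⊕ Fin l → Set (Fin k × Fin l) :=
  Sum.elim (fun i => {r | r.1 ≠ i}) (fun j => {r | r.2 ≠ j})

theorem lower {k l : ℕ} (hk : 0 < k) (hl : 0 < l) (V : VASS (Letter k l))
    (hV : V.lang = (V₁ k l).lang ∩ (V₂ k l).lang) :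
    ∃ w, ((k * l : ℕ) : ℕ∞) ≤ (V.acc w).encard := by
  obtain ⟨s, hs, hok⟩ := exists_ok (R := Fin k × Fin l) V
    ((la, ∅) :: (Finset.univ.toList (α := Fin k ⊕ Fin l)).map fun z => (lz z, pset z))
  rw [List.map_eq_cons_iff] at hs
  obtain ⟨y₀, s', rfl, hy₀, hs'⟩ := hs
  rw [Prod.mk.injEq] at hy₀
  obtain ⟨hy1, hy2⟩ := hy₀
  have hfst : s'.map Prod.fst = (Finset.univ.toList (α := Fin k ⊕ Fin l)).map lz := by
    have := congrArg (List.map Prod.fst) hs'
    rw [List.map_map, List.map_map] at this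
    exact this
  have hnd : (s'.map Prod.fst).Nodup := by
    rw [hfst]
    exact (Finset.nodup_toList _).map lz_injective
  have hnone : (la : Letter k l) ∉ s'.map Prod.fst := by
    rw [hfst, List.mem_map]
    rintro ⟨z, -, hz⟩
    exact lz_ne z hz
  have hblock : ∀ z : Fin k ⊕ Fin l, ∃ y ∈ s', y.1 = lz z ∧ y.2.1 = pset z := by
    intro z
    have h1 : (lz z, pset z) ∈ s'.map (fun y => (y.1, y.2.1)) := by
      rw [hs']
      exact List.mem_map.mpr ⟨z, by simp, rfl⟩
    obtain ⟨y, h2, h3⟩ := List.mem_map.mp h1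
    rw [Prod.mk.injEq] at h3
    exact ⟨y, h2, h3.1, h3.2⟩
  have hblock' : ∀ y ∈ s', ∀ z : Fin k ⊕ Fin l, y.1 = lz z → y.2.1 = pset z := by
    intro y hy z hz
    have h1 : (y.1, y.2.1) ∈ s'.map (fun y => (y.1, y.2.1)) := List.mem_map.mpr ⟨y, hy, rfl⟩
    rw [hs'] at h1
    obtain ⟨z', -, h2⟩ := List.mem_map.mp h1
    rw [Prod.mk.injEq] at h2
    obtain ⟨h3, h4⟩ := h2
    rw [hz] at h3
    rw [← h4, lz_injective h3]
  -- the words which match are in the language
  have hwords : ∀ r : Fin k × Fin l, ∀ w ∈ Words r (y₀ :: s'), w ∈ V.lang := by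
    rintro r w ⟨m, w', h1, h2, rfl⟩
    have hm := h1 (by rw [hy2]; simp)
    subst hm
    rw [hy1, hV]
    constructor
    · refine mem_lang_counter r.1 (words_count hnd ?_ h2)
      intro y hy hyz
      refine ⟨?_, hok.2.1 y hy⟩
      rw [hblock' y hy _ hyz]
      simp [pset]
    · refine mem_lang_counter r.2 (words_count hnd ?_ h2)
      intro y hy hyz
      refine ⟨?_, hok.2.1 y hy⟩
      rw [hblock' y hy _ hyz]
      simp [pset]
  have hruns : ∀ r : Fin k × Fin l, ∃ ρs, PRun V r (y₀ :: s') (V.q₀, V.c₀) ρs := by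
    intro r
    obtain ⟨κ, hκ, hg⟩ := good_of_words (V := V) r (y₀ :: s') {(V.q₀, V.c₀)}
      (Set.finite_singleton _) (by
        intro w hw
        obtain ⟨ρ, h1, κ', h2, h3⟩ := hwords r w hw
        exact ⟨_, rfl, ρ, κ', h1, h2, h3⟩)
    rw [Set.mem_singleton_iff] at hκ
    subst hκ
    exact exists_prun r _ hok _ hg
  choose ρs hρs using hruns
  refine ⟨word (y₀ :: s'), ?_⟩
  have hinj : Function.Injective fun r => (ρs r).flatten := by
    intro r r' he
    by_contra hne
    have e1 := prun_inj (hρs r) (hρs r') he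
    have h2 := hρs r'
    rw [← e1] at h2
    obtain ⟨w, hw, ρ, κ', h3, h4, h5⟩ := prun_pump (hρs r) h2 (y₀.2.2.factorial + 1) 0
    have h6 : w ∈ V.lang := by
      refine ⟨ρ, h3, κ', ?_, h5⟩
      have : up (V.q₀, V.c₀) (0 : Fin V.d → ℕ) = (V.q₀, V.c₀) := by simp [up]
      rw [this] at h4
      exact h4
    rw [hV] at h6
    have hcn : w.count la = y₀.2.2.factorial := by
      obtain ⟨m, w', h7, -, h8, rfl⟩ := hw
      rw [h7 (by rw [hy2]; simp) (by rw [hy2]; simp), hy1, List.count_append,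
        List.count_replicate_self]
      have : w'.count la = 0 := by
        rw [List.count_eq_zero]
        exact fun hmem => hnone (pw_mem h8 _ hmem)
      rw [this, add_zero]
    have hcount : ∀ z : Fin k ⊕ Fin l, (r ∈ pset z ∨ r' ∈ pset z) →
        y₀.2.2.factorial + 1 ≤ w.count (lz z) := by
      intro z hz
      obtain ⟨y, h7, h8, h9⟩ := hblock z
      rw [← h8]
      exact pw_count hw (List.mem_cons_of_mem _ h7) (by rw [h9]; exact hz)
    by_cases h10 : r.1 = r'.1
    · have h11 : r.2 ≠ r'.2 := fun h => hne (Prod.ext h10 h)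
      obtain ⟨j, hj⟩ := count_le_of_mem_lang hl h6.2
      have := hcount (Sum.inr j) (by
        by_contra h12
        simp only [pset, Sum.elim_inr, Set.mem_ofPred_eq, not_or, not_not] at h12
        exact h11 (h12.1.trans h12.2.symm))
      omega
    · obtain ⟨j, hj⟩ := count_le_of_mem_lang hk h6.1
      have := hcount (Sum.inl j) (by
        by_contra h12
        simp only [pset, Sum.elim_inl, Set.mem_ofPred_eq, not_or, not_not] at h12
        exact h10 (h12.1.trans h12.2.symm))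
      omega
  have hsub : (Set.range fun r => (ρs r).flatten) ⊆ V.acc (word (y₀ :: s')) := by
    rintro _ ⟨r, rfl⟩
    exact prun_acc (hρs r)
  refine le_trans (le_of_eq ?_) (Set.encard_le_encard hsub)
  rw [← Set.image_univ, hinj.encard_image, Set.encard_univ, ENat.card_eq_coe_fintype_card,
    Fintype.card_prod, Fintype.card_fin, Fintype.card_fin]

/-- For all `k₁, k₂ ≥ 1` there are a `k₁`-ambiguous and a `k₂`-ambiguous VASS language whose
intersection is not an `n`-ambiguous VASS language for any `n ≤ k₁ k₂ - 1`. -/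
theorem result (k₁ k₂ : ℕ) (h₁ : 0 < k₁) (h₂ : 0 < k₂) :
    ∃ (A : Type) (_ : Finite A) (L₁ L₂ : Set (List A)),
      (∃ V : VASS A, V.Ambiguous k₁ ∧ V.lang = L₁) ∧
      (∃ V : VASS A, V.Ambiguous k₂ ∧ V.lang = L₂) ∧
      ∀ n : ℕ, n < k₁ * k₂ → ¬ ∃ V : VASS A, V.Ambiguous n ∧ V.lang = L₁ ∩ L₂ := by
  refine ⟨Letter k₁ k₂, inferInstance, (V₁ k₁ k₂).lang, (V₂ k₁ k₂).lang,
    ⟨V₁ k₁ k₂, counter_ambiguous _ _ h₁, rfl⟩, ⟨V₂ k₁ k₂, counter_ambiguous _ _ h₂, rfl⟩, ?_⟩
  rintro n hn ⟨V, hV1, hV2⟩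
  obtain ⟨w, hw⟩ := lower h₁ h₂ V hV2
  have h3 := hw.trans (hV1 w)
  rw [Nat.cast_le] at h3
  omega

end Pool.Agent.Results.MP_bb7684_lc.TightIntersection
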